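import Mathlib

/-!
# Peelable sets and 3-term progressions

If a finite set `S` (with a map `φ` to an abelian group `G`) has a rank function `f`
such that no element is the midpoint of two elements of no larger rank (except trivially),
then the type classes of words over `S` contain no nontrivial 3-term progression.
-/

open Finset

namespace Pool.Agent.H480R2.AP3

/-- `A` contains no nontrivial `k`-term arithmetic progression
`x, x + y, x + 2y, …, x + (k-1)y` with `y ≠ 0`. -/
def ProgFree (k : ℕ) {G : Type*} [AddCommGroup G] (A : Finset G) : Prop :=
  ∀ x y : G, y ≠ 0 → ¬ ∀ i < k, x + i • y ∈ A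

/-- Peelability: `f b < max (f a) (f c)` whenever `φ b` is a nontrivial midpoint of
`φ a` and `φ c`. -/
def Peel {I G : Type*} [AddCommGroup G] (S : Finset I) (φ : I → G) (f : I → ℕ) : Prop :=
  ∀ a ∈ S, ∀ b ∈ S, ∀ c ∈ S, φ a + φ c = φ b + φ b → a ≠ b → f b < max (f a) (f c)

lemma Peel.inj {I G : Type*} [AddCommGroup G] {S : Finset I} {φ : I → G} {f : I → ℕ}
    (h : Peel S φ f) {a b : I} (ha : a ∈ S) (hb : b ∈ S) (hab : φ a = φ b) : a = b := by
  by_contra hne
  have h1 := h a ha b hb a ha (by rw [hab]) hne
  have h2 := h b hb a ha b hb (by rw [hab]) (fun e => hne e.symm)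
  simp at h1 h2
  omega

lemma key {I G ι : Type*} [AddCommGroup G] [DecidableEq I] [Fintype ι]
    {S : Finset I} {φ : I → G} {f : I → ℕ} (h : Peel S φ f)
    (x y z : ι → I) (hx : ∀ i, x i ∈ S) (hy : ∀ i, y i ∈ S) (hz : ∀ i, z i ∈ S)
    (hap : ∀ i, φ (x i) + φ (z i) = φ (y i) + φ (y i))
    (hxy : ∀ t, (univ.filter fun i => x i = t).card = (univ.filter fun i => y i = t).card)
    (hzy : ∀ t, (univ.filter fun i => z i = t).card = (univ.filter fun i => y i = t).card) :
    x = y := by
  classical
  set B := S.sup f with hB
  -- induct downwards on the rank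
  have main : ∀ k : ℕ, ∀ t ∈ S, B - f t ≤ k →
      (∀ i, y i = t ↔ x i = t) ∧ (∀ i, y i = t ↔ z i = t) := by
    intro k
    induction k using Nat.strong_induction_on with
    | _ k ih =>
      intro t ht hk
      have hlt : ∀ t' ∈ S, f t < f t' →
          (∀ i, y i = t' ↔ x i = t') ∧ (∀ i, y i = t' ↔ z i = t') := by
        intro t' ht' hf
        have h1 : f t' ≤ B := Finset.le_sup (f := f) ht'
        have h2 : f t ≤ B := Finset.le_sup (f := f) ht
        exact ih (B - f t') (by omega) t' ht' le_rfl
      have hsub : ∀ i, y i = t → x i = t ∧ z i = t := by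
        intro i hi
        have hxi : f (x i) ≤ f t := by
          by_contra hcon
          push Not at hcon
          have := ((hlt _ (hx i) hcon).1 i).2 rfl
          rw [hi] at this
          rw [← this] at hcon
          exact lt_irrefl _ hcon
        have hzi : f (z i) ≤ f t := by
          by_contra hcon
          push Not at hcon
          have := ((hlt _ (hz i) hcon).2 i).2 rfl
          rw [hi] at this
          rw [← this] at hcon
          exact lt_irrefl _ hcon
        have hxt : x i = t := by
          by_contra hne
          have := h _ (hx i) _ (hy i) _ (hz i) (hap i) (by rw [hi]; exact hne)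
          rw [hi] at this
          have h3 : max (f (x i)) (f (z i)) ≤ f t := max_le hxi hzi
          omega
        refine ⟨hxt, ?_⟩
        have := hap i
        rw [hxt, hi] at this
        have h4 : φ (z i) = φ t := add_left_cancel this
        exact h.inj (hz i) ht h4
      have e1 : (univ.filter fun i => y i = t) = (univ.filter fun i => x i = t) := by
        apply Finset.eq_of_subset_of_card_le
        · intro i hi
          simp only [mem_filter, mem_univ, true_and] at hi ⊢
          exact (hsub i hi).1
        · rw [hxy]
      have e2 : (univ.filter fun i => y i = t) = (univ.filter fun i => z i = t) := by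
        apply Finset.eq_of_subset_of_card_le
        · intro i hi
          simp only [mem_filter, mem_univ, true_and] at hi ⊢
          exact (hsub i hi).2
        · rw [hzy]
      constructor
      · intro i
        have := Finset.ext_iff.1 e1 i
        simpa using this
      · intro i
        have := Finset.ext_iff.1 e2 i
        simpa using this
  funext i
  have := (main _ (y i) (hy i) le_rfl).1 i
  exact this.1 rfl

/-- The type of a word. -/
noncomputable def wtype {I : Type*} [DecidableEq I] (S : Finset I) (n : ℕ) (w : Fin n → S) :
    S → Fin (n + 1) :=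
  fun t => ⟨(univ.filter fun i => w i = t).card, by
    have : (univ.filter fun i => w i = t).card ≤ (univ : Finset (Fin n)).card :=
      Finset.card_filter_le _ _
    simp at this
    omega⟩

theorem peel_bound {I G : Type*} [AddCommGroup G]
    (S : Finset I) (φ : I → G) (f : I → ℕ) (h : Peel S φ f) (n : ℕ) :
    ∃ A : Finset (Fin n → G), ProgFree 3 A ∧ S.card ^ n ≤ (n + 1) ^ S.card * A.card := by
  classical
  -- pigeonhole
  obtain ⟨τ, hτ⟩ : ∃ τ : S → Fin (n + 1),
      S.card ^ n ≤ (n + 1) ^ S.card * (univ.filter fun w : Fin n → S => wtype S n w = τ).card := by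
    by_contra hcon
    push Not at hcon
    have hsum : (univ : Finset (Fin n → S)).card
        = ∑ τ : S → Fin (n + 1), (univ.filter fun w : Fin n → S => wtype S n w = τ).card :=
      Finset.card_eq_sum_card_fiberwise (fun w _ => mem_univ (wtype S n w))
    have hc : (univ : Finset (Fin n → S)).card = S.card ^ n := by simp
    have hN : (univ : Finset (S → Fin (n + 1))).card = (n + 1) ^ S.card := by simp
    have hlt : ∑ τ : S → Fin (n + 1),
        (n + 1) ^ S.card * (univ.filter fun w : Fin n → S => wtype S n w = τ).card
        < ∑ τ : S → Fin (n + 1), S.card ^ n :=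
      Finset.sum_lt_sum_of_nonempty univ_nonempty (fun τ _ => hcon τ)
    rw [← Finset.mul_sum, ← hsum, hc, Finset.sum_const, hN, smul_eq_mul] at hlt
    exact lt_irrefl _ hlt
  set F := univ.filter fun w : Fin n → S => wtype S n w = τ with hF
  let e : (Fin n → S) → (Fin n → G) := fun w i => φ (w i)
  have einj : Function.Injective e := by
    intro w w' hw
    funext i
    have := congrFun hw i
    exact Subtype.ext (h.inj (w i).2 (w' i).2 this)
  refine ⟨F.image e, ?_, ?_⟩
  · intro X Y hY hall
    have h0 := hall 0 (by norm_num)
    have h1 := hall 1 (by norm_num)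
    have h2 := hall 2 (by norm_num)
    simp only [zero_smul, add_zero, one_smul, mem_image] at h0 h1 h2
    obtain ⟨a, ha, hae⟩ := h0
    obtain ⟨b, hb, hbe⟩ := h1
    obtain ⟨c, hc, hce⟩ := h2
    rw [hF, mem_filter] at ha hb hc
    have hcount : ∀ (w w' : Fin n → S), wtype S n w = τ → wtype S n w' = τ → ∀ t : I,
        (univ.filter fun i => (w i : I) = t).card = (univ.filter fun i => (w' i : I) = t).card := by
      intro w w' hw hw' t
      by_cases ht : t ∈ S
      · have e1 := congrFun (hw.trans hw'.symm) ⟨t, ht⟩
        have e2 := congrArg Fin.val e1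
        simp only [wtype] at e2
        have conv : ∀ w : Fin n → S, (univ.filter fun i => (w i : I) = t)
            = (univ.filter fun i => w i = ⟨t, ht⟩) := by
          intro w
          apply Finset.filter_congr
          intro i _
          constructor
          · intro hh; exact Subtype.ext hh
          · intro hh; rw [hh]
        rw [conv w, conv w']
        exact e2
      · have conv : ∀ w : Fin n → S, (univ.filter fun i => (w i : I) = t) = ∅ := by
          intro w
          apply Finset.filter_eq_empty_iff.2
          intro i _ hh
          exact ht (hh ▸ (w i).2)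
        rw [conv w, conv w']
    have hk := key h (fun i => (a i : I)) (fun i => (b i : I)) (fun i => (c i : I))
      (fun i => (a i).2) (fun i => (b i).2) (fun i => (c i).2) (by
        intro i
        have e0 : φ (a i) = X i := congrFun hae i
        have e1 : φ (b i) = (X + Y) i := congrFun hbe i
        have e2 : φ (c i) = (X + 2 • Y) i := congrFun hce i
        rw [e0, e1, e2]
        simp only [Pi.add_apply, two_smul]
        abel)
      (hcount a b ha.2 hb.2) (hcount c b hc.2 hb.2)
    apply hY
    have hXY : X = X + Y := by
      rw [← hbe]
      conv_lhs => rw [← hae]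
      funext i
      have := congrFun hk i
      simp only [e, this]
    exact (left_eq_add).1 hXY
  · rw [Finset.card_image_of_injective _ einj]
    exact hτ

end Pool.Agent.H480R2.AP3
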