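import Mathlib
import Pool.Agent.H480R2.AP3.Peel

/-!
# A peelable subset of `(ZMod m)^2` of density about `71/240`
-/

open Finset

namespace Pool.Agent.H480R2.AP3

/-- half-length of the body column `s` -/
def bb (h s : ℕ) : ℕ := min (10 * h) (2 * h + 1 + 12 * s) / 20

/-- half-length of the arm column `j` -/
def ww (h j : ℕ) : ℕ := min (min (5 * h) (4 * h + 12 * j)) (8 * h + 5 - 12 * j) / 10

/-- index type: body elements `(s, y)` and arm elements `(j, v)` -/
abbrev Idx := (Σ _ : ℕ, ℤ) ⊕ (Σ _ : ℕ, ℤ)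

noncomputable def SS (h : ℕ) : Finset Idx :=
  ((Finset.range (h + 1)).sigma (fun s => Finset.Icc (-(bb h s : ℤ)) (bb h s))).disjSum
    ((Finset.Icc 1 ((8 * h + 5) / 12)).sigma
      (fun j => Finset.Icc ((h : ℤ) + 1 - ww h j) ((h : ℤ) + ww h j)))

/-- integer representative of the first coordinate -/
def cX (h : ℕ) : Idx → ℤ
  | Sum.inl p => (p.1 : ℤ)
  | Sum.inr p => (h : ℤ) + p.1

/-- integer representative of twice the second coordinate -/
def cV : Idx → ℤ
  | Sum.inl p => 2 * p.2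
  | Sum.inr p => p.2

/-- the point of `(ZMod m)^2` -/
def ph (h : ℕ) (i : Idx) : ZMod (2 * h + 1) × ZMod (2 * h + 1) :=
  ((cX h i : ℤ), (((h : ℤ) + 1) * cV i : ℤ))

/-- the rank function -/
def rk (h : ℕ) : Idx → ℕ
  | Sum.inl p => p.1 * ((2 * h + 1) ^ 2 + 1) + p.2.natAbs ^ 2
  | Sum.inr p => (h + p.1) * ((2 * h + 1) ^ 2 + 1) + (2 * p.2 - (2 * h + 1)).natAbs ^ 2

lemma mem_body {h : ℕ} {p : Σ _ : ℕ, ℤ} (hp : Sum.inl p ∈ SS h) :
    p.1 ≤ h ∧ -(bb h p.1 : ℤ) ≤ p.2 ∧ p.2 ≤ bb h p.1 := by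
  simp only [SS, Finset.inl_mem_disjSum, Finset.mem_sigma, Finset.mem_range, Finset.mem_Icc] at hp
  exact ⟨by omega, hp.2.1, hp.2.2⟩

lemma mem_arm {h : ℕ} {p : Σ _ : ℕ, ℤ} (hp : Sum.inr p ∈ SS h) :
    1 ≤ p.1 ∧ p.1 ≤ (8 * h + 5) / 12 ∧ (h : ℤ) + 1 - ww h p.1 ≤ p.2 ∧ p.2 ≤ (h : ℤ) + ww h p.1 := by
  simp only [SS, Finset.inr_mem_disjSum, Finset.mem_sigma, Finset.mem_Icc] at hp
  exact ⟨hp.1.1, hp.1.2, hp.2.1, hp.2.2⟩

/-- the rank is dominated by the first coordinate -/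
lemma rk_lt_of_cX_lt {h : ℕ} {a b : Idx} (ha : a ∈ SS h) (hb : b ∈ SS h)
    (hlt : cX h a < cX h b) : rk h a < rk h b := by
  have hM : ∀ c ∈ SS h, (rk h c : ℤ) < (cX h c) * ((2 * h + 1) ^ 2 + 1) + ((2 * h + 1) ^ 2 + 1) ∧
      (cX h c) * ((2 * h + 1) ^ 2 + 1) ≤ (rk h c : ℤ) := by
    intro c hc
    rcases c with p | p
    · obtain ⟨h1, h2, h3⟩ := mem_body hc
      have hb1 : bb h p.1 ≤ h := by unfold bb; omega
      have : p.2 ^ 2 ≤ (h : ℤ) ^ 2 := by nlinarith
      simp only [rk, cX]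
      push_cast
      rw [sq_abs]
      constructor <;> nlinarith
    · obtain ⟨h0, h1, h2, h3⟩ := mem_arm hc
      have hw1 : ww h p.1 ≤ h := by unfold ww; omega
      have : (2 * p.2 - (2 * h + 1)) ^ 2 ≤ (2 * (h : ℤ) + 1) ^ 2 := by nlinarith
      simp only [rk, cX]
      push_cast
      rw [sq_abs]
      constructor <;> nlinarith
  have h1 := (hM a ha).1
  have h2 := (hM b hb).2
  have h3 : cX h a + 1 ≤ cX h b := hlt
  have h4 : (cX h a + 1) * (((2 * h + 1) ^ 2 + 1 : ℤ)) ≤ cX h b * ((2 * h + 1) ^ 2 + 1) := by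
    apply mul_le_mul_of_nonneg_right h3 (by positivity)
  have : (rk h a : ℤ) < rk h b := by nlinarith
  exact_mod_cast this

lemma cX_bound {h : ℕ} (hh : 2 ≤ h) {a : Idx} (ha : a ∈ SS h) :
    0 ≤ cX h a ∧ cX h a ≤ 2 * h := by
  rcases a with p | p
  · obtain ⟨h1, h2, h3⟩ := mem_body ha
    simp only [cX]; omega
  · obtain ⟨h0, h1, h2, h3⟩ := mem_arm ha
    simp only [cX]; omega

/-- same column: convexity -/
lemma same_col {h : ℕ} {a b c : Idx} (ha : a ∈ SS h) (hb : b ∈ SS h)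
    (hc : c ∈ SS h) (hab : a ≠ b) (h1 : cX h a = cX h b) (h2 : cX h c = cX h b)
    (hv : ((2 * h + 1 : ℕ) : ℤ) ∣ cV a + cV c - 2 * cV b) :
    rk h b < max (rk h a) (rk h c) := by
  obtain ⟨q, hq⟩ := hv
  rcases a with p | p <;> rcases b with p' | p' <;> rcases c with p'' | p''
  · obtain ⟨a1, a2, a3⟩ := mem_body ha
    obtain ⟨b1, b2, b3⟩ := mem_body hb
    obtain ⟨c1, c2, c3⟩ := mem_body hc
    simp only [cX] at h1 h2
    have e1 : p.1 = p'.1 := by exact_mod_cast h1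
    have e2 : p''.1 = p'.1 := by exact_mod_cast h2
    rw [e1] at a2 a3
    rw [e2] at c2 c3
    have hbb : 2 * bb h p'.1 ≤ h := by unfold bb; omega
    simp only [cV] at hq
    push_cast at hq
    have q0 : q = 0 := by
      have u1 : (2 * (h : ℤ) + 1) * q < (2 * h + 1) * 2 := by
        rw [← hq]; omega
      have u2 : (2 * (h : ℤ) + 1) * (-2) < (2 * h + 1) * q := by
        rw [← hq]; omega
      have hpos : (0 : ℤ) < 2 * h + 1 := by positivity
      have u3 : q < 2 := lt_of_mul_lt_mul_left u1 hpos.le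
      have u4 : -2 < q := lt_of_mul_lt_mul_left u2 hpos.le
      have : q = -1 ∨ q = 0 ∨ q = 1 := by omega
      rcases this with rfl | rfl | rfl
      · exfalso; omega
      · rfl
      · exfalso; omega
    rw [q0, mul_zero] at hq
    have hne : p.2 ≠ p'.2 := by
      intro e
      apply hab
      congr 1
      exact Sigma.ext e1 (by simpa using e)
    have hlt : p'.2 ^ 2 < max (p.2 ^ 2) (p''.2 ^ 2) := by
      have hs : p''.2 = 2 * p'.2 - p.2 := by linarith
      have hpos : 0 < (p.2 - p'.2) ^ 2 := by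
        have : p.2 - p'.2 ≠ 0 := sub_ne_zero.2 hne
        positivity
      rw [lt_max_iff]
      by_contra hcon
      push Not at hcon
      rw [hs] at hcon
      nlinarith
    have hcast : ((p'.2.natAbs ^ 2 : ℕ) : ℤ) < max ((p.2.natAbs ^ 2 : ℕ) : ℤ) ((p''.2.natAbs ^ 2 : ℕ) : ℤ) := by
      push_cast; rw [sq_abs, sq_abs, sq_abs]; exact hlt
    have hcast' : p'.2.natAbs ^ 2 < max (p.2.natAbs ^ 2) (p''.2.natAbs ^ 2) := by
      exact_mod_cast hcast
    simp only [rk, e1, e2]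
    rw [lt_max_iff] at hcast' ⊢
    rcases hcast' with hh | hh
    · left; omega
    · right; omega
  · obtain ⟨b1, b2, b3⟩ := mem_body hb
    obtain ⟨c0, c1, c2, c3⟩ := mem_arm hc
    simp only [cX] at h2; omega
  · obtain ⟨b1, b2, b3⟩ := mem_body ha
    obtain ⟨c0, c1, c2, c3⟩ := mem_arm hb
    simp only [cX] at h1; omega
  · obtain ⟨b1, b2, b3⟩ := mem_body ha
    obtain ⟨c0, c1, c2, c3⟩ := mem_arm hb
    simp only [cX] at h1; omega
  · obtain ⟨b1, b2, b3⟩ := mem_body hb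
    obtain ⟨c0, c1, c2, c3⟩ := mem_arm ha
    simp only [cX] at h1; omega
  · obtain ⟨b1, b2, b3⟩ := mem_body hb
    obtain ⟨c0, c1, c2, c3⟩ := mem_arm ha
    simp only [cX] at h1; omega
  · obtain ⟨b1, b2, b3⟩ := mem_body hc
    obtain ⟨c0, c1, c2, c3⟩ := mem_arm hb
    simp only [cX] at h2; omega
  · obtain ⟨a0, a1, a2, a3⟩ := mem_arm ha
    obtain ⟨b0, b1, b2, b3⟩ := mem_arm hb
    obtain ⟨c0, c1, c2, c3⟩ := mem_arm hc
    simp only [cX] at h1 h2
    have e1 : p.1 = p'.1 := by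
      have : (p.1 : ℤ) = p'.1 := by linarith
      exact_mod_cast this
    have e2 : p''.1 = p'.1 := by
      have : (p''.1 : ℤ) = p'.1 := by linarith
      exact_mod_cast this
    rw [e1] at a2 a3
    rw [e2] at c2 c3
    have hww : 2 * ww h p'.1 ≤ h := by unfold ww; omega
    simp only [cV] at hq
    push_cast at hq
    have q0 : q = 0 := by
      have u1 : (2 * (h : ℤ) + 1) * q < (2 * h + 1) * 1 := by
        rw [← hq]; omega
      have u2 : (2 * (h : ℤ) + 1) * (-1) < (2 * h + 1) * q := by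
        rw [← hq]; omega
      have hpos : (0 : ℤ) < 2 * h + 1 := by positivity
      have u3 : q < 1 := lt_of_mul_lt_mul_left u1 hpos.le
      have u4 : -1 < q := lt_of_mul_lt_mul_left u2 hpos.le
      omega
    rw [q0, mul_zero] at hq
    have hne : p.2 ≠ p'.2 := by
      intro e
      apply hab
      congr 1
      exact Sigma.ext e1 (by simpa using e)
    set A := 2 * p.2 - (2 * (h : ℤ) + 1) with hA
    set B := 2 * p'.2 - (2 * (h : ℤ) + 1) with hB
    set C := 2 * p''.2 - (2 * (h : ℤ) + 1) with hC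
    have hlt : B ^ 2 < max (A ^ 2) (C ^ 2) := by
      have hs : C = 2 * B - A := by rw [hA, hB, hC]; linarith
      have hpos : 0 < (A - B) ^ 2 := by
        have : A - B ≠ 0 := by rw [hA, hB]; intro e; apply hne; linarith
        positivity
      rw [lt_max_iff]
      by_contra hcon
      push Not at hcon
      rw [hs] at hcon
      nlinarith
    have hcast' : B.natAbs ^ 2 < max (A.natAbs ^ 2) (C.natAbs ^ 2) := by
      have hcast : ((B.natAbs ^ 2 : ℕ) : ℤ) < max ((A.natAbs ^ 2 : ℕ) : ℤ) ((C.natAbs ^ 2 : ℕ) : ℤ) := by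
        push_cast; rw [sq_abs, sq_abs, sq_abs]; exact hlt
      exact_mod_cast hcast
    simp only [rk, e1, e2]
    rw [← hA, ← hB, ← hC]
    rw [lt_max_iff] at hcast' ⊢
    rcases hcast' with hh | hh
    · left; omega
    · right; omega

/-- wrapped midpoints never occur -/
lemma no_wrap {h : ℕ} (hh : 2 ≤ h) {a b c : Idx} (ha : a ∈ SS h) (hb : b ∈ SS h)
    (hc : c ∈ SS h) (hX : cX h a + cX h c = 2 * cX h b - (2 * h + 1))
    (hv : ((2 * h + 1 : ℕ) : ℤ) ∣ cV a + cV c - 2 * cV b) : False := by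
  obtain ⟨q, hq⟩ := hv
  have hpos : (0 : ℤ) < 2 * h + 1 := by positivity
  rcases b with p' | p'
  · obtain ⟨b1, b2, b3⟩ := mem_body hb
    have t1 := cX_bound hh ha
    have t2 := cX_bound hh hc
    have t3 : cX h (Sum.inl p') = (p'.1 : ℤ) := rfl
    rw [t3] at hX
    omega
  obtain ⟨b0, b1, b2, b3⟩ := mem_arm hb
  rcases a with p | p <;> rcases c with p'' | p''
  · obtain ⟨a1, a2, a3⟩ := mem_body ha
    obtain ⟨c1, c2, c3⟩ := mem_body hc
    simp only [cX] at hX
    simp only [cV] at hq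
    push_cast at hq
    have hcon : bb h p.1 + bb h p''.1 + ww h p'.1 ≤ h := by
      have : p.1 + p''.1 + 1 = 2 * p'.1 := by omega
      unfold bb ww; omega
    have u1 : (2 * (h : ℤ) + 1) * q < (2 * h + 1) * 0 := by
      rw [← hq]; omega
    have u2 : (2 * (h : ℤ) + 1) * (-2) < (2 * h + 1) * q := by
      rw [← hq]; omega
    have u3 : q < 0 := lt_of_mul_lt_mul_left u1 hpos.le
    have u4 : -2 < q := lt_of_mul_lt_mul_left u2 hpos.le
    have : q = -1 := by omega
    rw [this] at hq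
    omega
  · obtain ⟨a1, a2, a3⟩ := mem_body ha
    obtain ⟨c0, c1, c2, c3⟩ := mem_arm hc
    simp only [cX] at hX
    simp only [cV] at hq
    push_cast at hq
    have hcon : 2 * ww h p'.1 + ww h p''.1 + 2 * bb h p.1 ≤ h := by
      have : p.1 + p''.1 + h + 1 = 2 * p'.1 := by omega
      unfold bb ww; omega
    have u1 : (2 * (h : ℤ) + 1) * q < (2 * h + 1) * 0 := by
      rw [← hq]; omega
    have u2 : (2 * (h : ℤ) + 1) * (-1) < (2 * h + 1) * q := by
      rw [← hq]; omega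
    have u3 : q < 0 := lt_of_mul_lt_mul_left u1 hpos.le
    have u4 : -1 < q := lt_of_mul_lt_mul_left u2 hpos.le
    omega
  · obtain ⟨a0, a1, a2, a3⟩ := mem_arm ha
    obtain ⟨c1, c2, c3⟩ := mem_body hc
    simp only [cX] at hX
    simp only [cV] at hq
    push_cast at hq
    have hcon : 2 * ww h p'.1 + ww h p.1 + 2 * bb h p''.1 ≤ h := by
      have : p.1 + p''.1 + h + 1 = 2 * p'.1 := by omega
      unfold bb ww; omega
    have u1 : (2 * (h : ℤ) + 1) * q < (2 * h + 1) * 0 := by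
      rw [← hq]; omega
    have u2 : (2 * (h : ℤ) + 1) * (-1) < (2 * h + 1) * q := by
      rw [← hq]; omega
    have u3 : q < 0 := lt_of_mul_lt_mul_left u1 hpos.le
    have u4 : -1 < q := lt_of_mul_lt_mul_left u2 hpos.le
    omega
  · obtain ⟨a0, a1, a2, a3⟩ := mem_arm ha
    obtain ⟨c0, c1, c2, c3⟩ := mem_arm hc
    simp only [cX] at hX
    omega

theorem peel_SS {h : ℕ} (hh : 2 ≤ h) : Peel (SS h) (ph h) (rk h) := by
  intro a ha b hb c hc hsum hab
  have hX : ((2 * h + 1 : ℕ) : ℤ) ∣ cX h a + cX h c - 2 * cX h b := by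
    have h1 := congrArg Prod.fst hsum
    simp only [ph, Prod.fst_add] at h1
    have h2 : ((cX h a + cX h c - 2 * cX h b : ℤ) : ZMod (2 * h + 1)) = 0 := by
      push_cast
      rw [h1]; ring
    exact (ZMod.intCast_zmod_eq_zero_iff_dvd _ _).1 h2
  have hv : ((2 * h + 1 : ℕ) : ℤ) ∣ cV a + cV c - 2 * cV b := by
    have h1 := congrArg Prod.snd hsum
    simp only [ph, Prod.snd_add] at h1
    have hm : ((2 * ((h : ℤ) + 1) : ℤ) : ZMod (2 * h + 1)) = 1 := by
      have : ((2 * h + 1 : ℕ) : ZMod (2 * h + 1)) = 0 := ZMod.natCast_self _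
      push_cast at this ⊢
      calc (2 * ((h : ZMod (2 * h + 1)) + 1)) = (2 * h + 1) + 1 := by ring
        _ = 1 := by rw [this, zero_add]
    have h2 : ((cV a + cV c - 2 * cV b : ℤ) : ZMod (2 * h + 1)) = 0 := by
      have h3 : ((2 * ((h : ℤ) + 1) : ℤ) : ZMod (2 * h + 1)) * ((cV a + cV c - 2 * cV b : ℤ) : ZMod (2 * h + 1)) = 0 := by
        have h4 : ((((h : ℤ) + 1) * cV a : ℤ) : ZMod (2 * h + 1)) + ((((h : ℤ) + 1) * cV c : ℤ) : ZMod (2 * h + 1))
          - ((((h : ℤ) + 1) * cV b : ℤ) : ZMod (2 * h + 1)) - ((((h : ℤ) + 1) * cV b : ℤ) : ZMod (2 * h + 1)) = 0 := by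
          rw [h1]; ring
        calc _ = 2 * (((((h : ℤ) + 1) * cV a : ℤ) : ZMod (2 * h + 1)) + ((((h : ℤ) + 1) * cV c : ℤ) : ZMod (2 * h + 1))
          - ((((h : ℤ) + 1) * cV b : ℤ) : ZMod (2 * h + 1)) - ((((h : ℤ) + 1) * cV b : ℤ) : ZMod (2 * h + 1))) := by
              push_cast; ring
          _ = 0 := by rw [h4, mul_zero]
      rwa [hm, one_mul] at h3
    exact (ZMod.intCast_zmod_eq_zero_iff_dvd _ _).1 h2
  have Xa := cX_bound hh ha
  have Xb := cX_bound hh hb
  have Xc := cX_bound hh hc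
  obtain ⟨q, hq⟩ := hX
  push_cast at hq
  have hpos : (0 : ℤ) < 2 * h + 1 := by positivity
  have u1 : (2 * (h : ℤ) + 1) * q < (2 * h + 1) * 2 := by rw [← hq]; omega
  have u2 : (2 * (h : ℤ) + 1) * (-2) < (2 * h + 1) * q := by rw [← hq]; omega
  have u3 : q < 2 := lt_of_mul_lt_mul_left u1 hpos.le
  have u4 : -2 < q := lt_of_mul_lt_mul_left u2 hpos.le
  have hq3 : q = -1 ∨ q = 0 ∨ q = 1 := by omega
  have hmax : (cX h b < cX h a ∨ cX h b < cX h c) → rk h b < max (rk h a) (rk h c) := by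
    intro hd
    rcases hd with hd | hd
    · exact lt_max_of_lt_left (rk_lt_of_cX_lt hb ha hd)
    · exact lt_max_of_lt_right (rk_lt_of_cX_lt hb hc hd)
  rcases hq3 with rfl | rfl | rfl
  · exfalso
    exact no_wrap hh ha hb hc (by linarith) hv
  · by_cases he : cX h a = cX h b
    · exact same_col ha hb hc hab he (by linarith) hv
    · apply hmax
      rcases lt_or_gt_of_ne he with h1 | h1
      · right; linarith
      · left; exact h1
  · apply hmax
    by_contra hcon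
    push Not at hcon
    linarith

end Pool.Agent.H480R2.AP3
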