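import Mathlib
import Pool.Agent.H480R2.AP3.TwoD

open Finset

namespace Pool.Agent.H480R2.AP3

lemma lin_sum (c k : ℤ) (a b : ℕ) (hab : a ≤ b) :
    2 * ∑ j ∈ Finset.Ico a b, (c + k * (j : ℤ))
      = 2 * c * ((b : ℤ) - a) + k * ((b : ℤ) * (b - 1) - a * (a - 1)) := by
  induction b, hab using Nat.le_induction with
  | base => simp
  | succ n hn ih =>
    rw [Finset.sum_Ico_succ_top hn, mul_add, ih]
    push_cast
    ring

lemma card_SS (h : ℕ) : ((SS h).card : ℤ)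
    = ∑ s ∈ Finset.Ico 0 (h + 1), (2 * (bb h s : ℤ) + 1)
      + ∑ j ∈ Finset.Ico 1 ((8 * h + 5) / 12 + 1), (2 * (ww h j : ℤ)) := by
  rw [SS, Finset.card_disjSum, Finset.card_sigma, Finset.card_sigma]
  push_cast
  congr 1
  · rw [Finset.range_eq_Ico]
    apply Finset.sum_congr rfl
    intro s _
    rw [Int.card_Icc, Int.toNat_of_nonneg (by omega)]
    ring
  · have : Finset.Icc 1 ((8 * h + 5) / 12) = Finset.Ico 1 ((8 * h + 5) / 12 + 1) := by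
      ext x; simp only [Finset.mem_Icc, Finset.mem_Ico]; omega
    rw [this]
    apply Finset.sum_congr rfl
    intro j _
    rw [Int.card_Icc, Int.toNat_of_nonneg (by omega)]
    ring

lemma body_sum (h : ℕ) (hh : 2 ≤ h) :
    (176 * (h : ℤ) ^ 2 + 160 * h - 25) - 216 * (h + 1)
      ≤ 240 * ∑ s ∈ Finset.Ico 0 (h + 1), (2 * (bb h s : ℤ) + 1) := by
  set ρ := (8 * h + 11) / 12 with hρ
  have h1 : (0 : ℕ) ≤ ρ := Nat.zero_le _
  have h2 : ρ ≤ h + 1 := by omega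
  rw [← Finset.sum_Ico_consecutive _ h1 h2]
  have A : ∑ s ∈ Finset.Ico 0 ρ, ((2 * (h : ℤ) + 1 - 9) + 12 * (s : ℤ))
      ≤ 10 * ∑ s ∈ Finset.Ico 0 ρ, (2 * (bb h s : ℤ) + 1) := by
    rw [Finset.mul_sum]
    apply Finset.sum_le_sum
    intro s hs
    rw [Finset.mem_Ico] at hs
    have : 12 * s + 2 * h + 1 ≤ 10 * h := by omega
    unfold bb
    omega
  have B : ∑ s ∈ Finset.Ico ρ (h + 1), ((10 * (h : ℤ) - 9) + 0 * (s : ℤ))
      ≤ 10 * ∑ s ∈ Finset.Ico ρ (h + 1), (2 * (bb h s : ℤ) + 1) := by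
    rw [Finset.mul_sum]
    apply Finset.sum_le_sum
    intro s hs
    rw [Finset.mem_Ico] at hs
    have : 10 * h ≤ 2 * h + 1 + 12 * s := by omega
    unfold bb
    omega
  have A' := lin_sum (2 * (h : ℤ) + 1 - 9) 12 0 ρ h1
  have B' := lin_sum (10 * (h : ℤ) - 9) 0 ρ (h + 1) h2
  push_cast at A' B'
  have key : (0 : ℤ) ≤ (12 * (ρ : ℤ) - (8 * h + 5)) ^ 2 := sq_nonneg _
  nlinarith [A, B, A', B', key]

lemma arm_sum (h : ℕ) (hh : 2 ≤ h) :
    (108 * (h : ℤ) ^ 2 + 4 * h - 144) - 432 * ((8 * h + 5) / 12 : ℕ)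
      ≤ 240 * ∑ j ∈ Finset.Ico 1 ((8 * h + 5) / 12 + 1), (2 * (ww h j : ℤ)) := by
  set J := (8 * h + 5) / 12 with hJ
  set a := h / 12 + 1 with ha
  set b := (3 * h + 5) / 12 + 1 with hb
  have h1 : (1 : ℕ) ≤ a := by omega
  have h2 : a ≤ b := by omega
  have h3 : b ≤ J + 1 := by omega
  rw [← Finset.sum_Ico_consecutive _ (h1.trans h2) h3, ← Finset.sum_Ico_consecutive _ h1 h2]
  have A : ∑ j ∈ Finset.Ico 1 a, ((4 * (h : ℤ) - 9) + 12 * (j : ℤ))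
      ≤ 5 * ∑ j ∈ Finset.Ico 1 a, (2 * (ww h j : ℤ)) := by
    rw [Finset.mul_sum]
    apply Finset.sum_le_sum
    intro j hj
    rw [Finset.mem_Ico] at hj
    unfold ww
    omega
  have B : ∑ j ∈ Finset.Ico a b, ((5 * (h : ℤ) - 9) + 0 * (j : ℤ))
      ≤ 5 * ∑ j ∈ Finset.Ico a b, (2 * (ww h j : ℤ)) := by
    rw [Finset.mul_sum]
    apply Finset.sum_le_sum
    intro j hj
    rw [Finset.mem_Ico] at hj
    unfold ww
    omega
  have C : ∑ j ∈ Finset.Ico b (J + 1), ((8 * (h : ℤ) + 5 - 9) + (-12) * (j : ℤ))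
      ≤ 5 * ∑ j ∈ Finset.Ico b (J + 1), (2 * (ww h j : ℤ)) := by
    rw [Finset.mul_sum]
    apply Finset.sum_le_sum
    intro j hj
    rw [Finset.mem_Ico] at hj
    unfold ww
    omega
  have A' := lin_sum (4 * (h : ℤ) - 9) 12 1 a h1
  have B' := lin_sum (5 * (h : ℤ) - 9) 0 a b h2
  have C' := lin_sum (8 * (h : ℤ) + 5 - 9) (-12) b (J + 1) h3
  push_cast at A' B' C'
  have k1 : (0 : ℤ) ≤ (12 * (a : ℤ) - (h + 6)) ^ 2 := sq_nonneg _
  have k2 : (0 : ℤ) ≤ (12 * (b : ℤ) - (3 * h + 11)) ^ 2 := sq_nonneg _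
  have k3 : (12 * ((J : ℤ) + 1) - (8 * h + 11)) ^ 2 ≤ 36 := by
    have e1 : (12 * ((J : ℤ) + 1) - (8 * h + 11)) ≤ 6 := by omega
    have e2 : -6 ≤ (12 * ((J : ℤ) + 1) - (8 * h + 11)) := by omega
    nlinarith
  nlinarith [A, B, C, A', B', C', k1, k2, k3]

lemma card_lower (h : ℕ) (hh : 2 ≤ h) :
    284 * (h : ℤ) ^ 2 - 340 * h - 565 ≤ 240 * ((SS h).card : ℤ) := by
  rw [card_SS, mul_add]
  have A := body_sum h hh
  have B := arm_sum h hh
  have hJ : 432 * (((8 * h + 5) / 12 : ℕ) : ℤ) ≤ 36 * (8 * h + 5) := by omega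
  nlinarith

/-- Main count: at least `(√(71/240) m - 2)^2` elements. -/
lemma card_lower_real (h : ℕ) (hh : 3 ≤ h) :
    (Real.sqrt (71 / 240) * (2 * h + 1 : ℕ) - 2) ^ 2 ≤ ((SS h).card : ℝ) := by
  have h1 := card_lower h (by omega)
  have h2 : (284 * (h : ℝ) ^ 2 - 340 * h - 565) ≤ 240 * ((SS h).card : ℝ) := by
    exact_mod_cast h1
  set c := Real.sqrt (71 / 240) with hc
  have hc2 : c ^ 2 = 71 / 240 := Real.sq_sqrt (by norm_num)
  have hc0 : 0.5439 ≤ c := by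
    rw [hc]
    apply Real.le_sqrt_of_sq_le
    norm_num
  have hh' : (3 : ℝ) ≤ h := by exact_mod_cast hh
  push_cast
  have e : (c * (2 * (h : ℝ) + 1) - 2) ^ 2
      = c ^ 2 * (2 * h + 1) ^ 2 - 4 * c * (2 * h + 1) + 4 := by ring
  rw [e, hc2]
  nlinarith

end Pool.Agent.H480R2.AP3
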