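import Mathlib
import Pool.Agent.H480R2.AP3.Peel

open Finset Filter Topology

namespace Pool.Agent.H480R2.AP3

/-- `r_k(F_p^n)`: the largest size of a subset of `F_p^n` that contains no nontrivial
`k`-term arithmetic progression. -/
noncomputable def r (k p n : ℕ) : ℕ :=
  sSup {s : ℕ | ∃ A : Finset (Fin n → ZMod p), ProgFree k A ∧ A.card = s}

/-- `λ_{k,p} = sup_{n ≥ 1} r_k(F_p^n)^{1/n}` (which is also the limit, by Fekete's lemma). -/
noncomputable def lam (k p : ℕ) : ℝ :=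
  ⨆ n : ℕ, (r k p (n + 1) : ℝ) ^ ((1 : ℝ) / ((n + 1 : ℕ) : ℝ))

lemma card_le_pow {p n : ℕ} [NeZero p] (A : Finset (Fin n → ZMod p)) : A.card ≤ p ^ n := by
  have := Finset.card_le_univ A
  simpa [Fintype.card_pi, ZMod.card] using this

lemma bdd {k p n : ℕ} [NeZero p] :
    BddAbove {s : ℕ | ∃ A : Finset (Fin n → ZMod p), ProgFree k A ∧ A.card = s} :=
  ⟨p ^ n, by rintro s ⟨A, _, rfl⟩; exact card_le_pow A⟩

lemma le_r {k p n : ℕ} [NeZero p] {A : Finset (Fin n → ZMod p)} (hA : ProgFree k A) :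
    A.card ≤ r k p n := le_csSup bdd ⟨A, hA, rfl⟩

lemma r_le {k p n : ℕ} [NeZero p] : r k p n ≤ p ^ n := by
  unfold r
  by_cases hne : {s : ℕ | ∃ A : Finset (Fin n → ZMod p), ProgFree k A ∧ A.card = s}.Nonempty
  · exact csSup_le hne (by rintro s ⟨A, _, rfl⟩; exact card_le_pow A)
  · rw [Set.not_nonempty_iff_eq_empty] at hne
    rw [hne]; simp

lemma root_le_lam {k p : ℕ} [NeZero p] (n : ℕ) (hn : 1 ≤ n) :
    (r k p n : ℝ) ^ ((1 : ℝ) / (n : ℝ)) ≤ lam k p := by
  have hb : BddAbove (Set.range fun n : ℕ => (r k p (n + 1) : ℝ) ^ ((1 : ℝ) / ((n + 1 : ℕ) : ℝ))) := by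
    refine ⟨p, ?_⟩
    rintro _ ⟨m, rfl⟩
    have h1 : (r k p (m + 1) : ℝ) ≤ (p : ℝ) ^ (m + 1) := by exact_mod_cast r_le
    calc (r k p (m + 1) : ℝ) ^ ((1 : ℝ) / ((m + 1 : ℕ) : ℝ))
        ≤ ((p : ℝ) ^ (m + 1)) ^ ((1 : ℝ) / ((m + 1 : ℕ) : ℝ)) :=
          Real.rpow_le_rpow (by positivity) h1 (by positivity)
      _ = p := by
          rw [one_div]
          exact Real.pow_rpow_inv_natCast (by positivity) (by omega)
  obtain ⟨m, rfl⟩ : ∃ m, n = m + 1 := ⟨n - 1, by omega⟩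
  exact le_ciSup hb m

/-- transfer along an injective homomorphism -/
lemma ProgFree.map {k : ℕ} {G H : Type*} [AddCommGroup G] [AddCommGroup H] {A : Finset G}
    (hA : ProgFree k A) (hk : 2 ≤ k) (e : G →+ H) (he : Function.Injective e) :
    ProgFree k (A.map ⟨e, he⟩) := by
  intro x y hy hall
  have h0 := hall 0 (by omega)
  have h1 := hall 1 (by omega)
  simp only [zero_smul, add_zero, one_smul, Finset.mem_map, Function.Embedding.coeFn_mk] at h0 h1
  obtain ⟨a, ha, hax⟩ := h0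
  obtain ⟨b, hb, hby⟩ := h1
  have hyb : e (b - a) = y := by rw [map_sub, hby, hax]; abel
  apply hA a (b - a)
  · intro h; rw [h, map_zero] at hyb; exact hy hyb.symm
  · intro i hi
    have := hall i hi
    simp only [Finset.mem_map, Function.Embedding.coeFn_mk] at this
    obtain ⟨c, hc, hce⟩ := this
    have : c = a + i • (b - a) := by
      apply he
      rw [hce, map_add, map_nsmul, hax, hyb]
    rw [← this]; exact hc

/-- words of vectors are vectors -/
def flat (p D n : ℕ) : (Fin n → (Fin D → ZMod p)) →+ (Fin (n * D) → ZMod p) where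
  toFun w := fun i => w (finProdFinEquiv.symm i).1 (finProdFinEquiv.symm i).2
  map_zero' := by funext i; simp
  map_add' := by intro a b; funext i; simp

lemma flat_inj (p D n : ℕ) : Function.Injective (flat p D n) := by
  intro a b hab
  funext i j
  have := congrFun hab (finProdFinEquiv (i, j))
  simp only [flat, AddMonoidHom.coe_mk, ZeroHom.coe_mk, Equiv.symm_apply_apply] at this
  exact this

theorem pow_le_r {I : Type*} {p D : ℕ} [NeZero p] (S : Finset I) (φ : I → (Fin D → ZMod p))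
    (f : I → ℕ) (h : Peel S φ f) (n : ℕ) :
    S.card ^ n ≤ (n + 1) ^ S.card * r 3 p (n * D) := by
  obtain ⟨A, hA, hc⟩ := peel_bound S φ f h n
  refine hc.trans (Nat.mul_le_mul_left _ ?_)
  have := le_r (hA.map (by norm_num) (flat p D n) (flat_inj p D n))
  rwa [Finset.card_map] at this

theorem lam_ge_of_pow {k p D C : ℕ} [NeZero p] (hD : 1 ≤ D) (x : ℝ) (hx : 0 ≤ x)
    (h : ∀ n : ℕ, x ^ n ≤ ((n : ℝ) + 1) ^ C * r k p (n * D)) :
    x ^ ((1 : ℝ) / D) ≤ lam k p := by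
  have hDpos : (0 : ℝ) < D := by exact_mod_cast hD
  have hstep : ∀ n : ℕ, 1 ≤ n →
      x ^ ((1 : ℝ) / D) ≤ (((n : ℝ) + 1) ^ ((C : ℝ) / (D * ((n : ℝ) + 1) + (-(D : ℝ))))) * lam k p := by
    intro n hn
    have hnpos : (0 : ℝ) < n := by exact_mod_cast hn
    have h1 := h n
    have hnD : 1 ≤ n * D := Nat.mul_pos hn hD
    have h2 := root_le_lam (k := k) (p := p) (n * D) hnD
    have hnDr : ((n * D : ℕ) : ℝ) = n * D := by push_cast; ring
    rw [hnDr] at h2
    have e0 : (D : ℝ) * ((n : ℝ) + 1) + (-(D : ℝ)) = n * D := by ring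
    rw [e0]
    have h3 : (x ^ n) ^ ((1 : ℝ) / (n * D)) ≤
        (((n : ℝ) + 1) ^ C * r k p (n * D)) ^ ((1 : ℝ) / (n * D)) :=
      Real.rpow_le_rpow (by positivity) h1 (by positivity)
    have e1 : (x ^ n) ^ ((1 : ℝ) / (n * D)) = x ^ ((1 : ℝ) / D) := by
      rw [← Real.rpow_natCast, ← Real.rpow_mul hx]
      congr 1
      field_simp
    have e2 : (((n : ℝ) + 1) ^ C * (r k p (n * D) : ℝ)) ^ ((1 : ℝ) / (n * D))
        = ((n : ℝ) + 1) ^ ((C : ℝ) / (n * D)) * (r k p (n * D) : ℝ) ^ ((1 : ℝ) / (n * D)) := by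
      rw [Real.mul_rpow (by positivity) (by positivity)]
      congr 1
      rw [← Real.rpow_natCast, ← Real.rpow_mul (by positivity)]
      congr 1
      ring
    rw [e1, e2] at h3
    refine h3.trans ?_
    apply mul_le_mul_of_nonneg_left h2
    positivity
  have hlim : Tendsto (fun n : ℕ => (((n : ℝ) + 1) ^ ((C : ℝ) / (D * ((n : ℝ) + 1) + (-(D : ℝ))))) * lam k p)
      atTop (𝓝 (1 * lam k p)) := by
    apply Tendsto.mul_const
    have t := tendsto_rpow_div_mul_add (C : ℝ) (D : ℝ) (-(D : ℝ)) hDpos.ne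
    have t2 : Tendsto (fun n : ℕ => (n : ℝ) + 1) atTop atTop :=
      tendsto_atTop_add_const_right _ _ tendsto_natCast_atTop_atTop
    exact t.comp t2
  rw [one_mul] at hlim
  exact ge_of_tendsto hlim (Filter.eventually_atTop.2 ⟨1, hstep⟩)

theorem lam_ge {I : Type*} {p D : ℕ} [NeZero p] (hD : 1 ≤ D) (S : Finset I)
    (φ : I → (Fin D → ZMod p)) (f : I → ℕ) (h : Peel S φ f) :
    ((S.card : ℝ)) ^ ((1 : ℝ) / D) ≤ lam 3 p := by
  apply lam_ge_of_pow hD (S.card : ℝ) (by positivity) (C := S.card)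
  intro n
  exact_mod_cast pow_le_r S φ f h n

end Pool.Agent.H480R2.AP3
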