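import Mathlib
import Pool.Agent.H480R2.AP3.Count
import Pool.Agent.H480R2.AP3.Lam

open Finset Filter Topology

namespace Pool.Agent.H480R2.AP3

/-- The point of `(ZMod m)^2` as a vector of length two. -/
def ph2 (h : ℕ) (i : Idx) : Fin 2 → ZMod (2 * h + 1) := ![(ph h i).1, (ph h i).2]

lemma peel_SS2 {h : ℕ} (hh : 2 ≤ h) : Peel (SS h) (ph2 h) (rk h) := by
  intro a ha b hb c hc hsum hab
  apply peel_SS hh a ha b hb c hc _ hab
  have h0 := congrFun hsum 0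
  have h1 := congrFun hsum 1
  simp only [ph2, Pi.add_apply, Matrix.cons_val_zero, Matrix.cons_val_one] at h0 h1
  exact Prod.ext h0 h1

theorem main_family (p : ℕ) (hp : p.Prime) (h7 : 7 ≤ p) :
    (∀ n : ℕ, (Real.sqrt (71 / 240) * p - 2) ^ (2 * n) ≤ ((n : ℝ) + 1) ^ (p ^ 2) * r 3 p (n * 2)) ∧
    Real.sqrt (71 / 240) * p - 2 ≤ lam 3 p := by
  haveI : NeZero p := ⟨hp.ne_zero⟩
  obtain ⟨h, rfl⟩ : ∃ h, p = 2 * h + 1 := by
    rcases hp.eq_two_or_odd' with h2 | h2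
    · omega
    · exact h2
  have hh : 3 ≤ h := by omega
  have hcard := card_lower_real h hh
  have hpeel := peel_SS2 (h := h) (by omega)
  have hcp : (SS h).card ≤ (2 * h + 1) ^ 2 := by
    have hinj : Function.Injective (fun i : SS h => ph2 h i.1) := by
      intro i j hij
      exact Subtype.ext (hpeel.inj i.2 j.2 hij)
    have := Fintype.card_le_of_injective _ hinj
    simpa [Fintype.card_pi, ZMod.card] using this
  have hpow : ∀ n : ℕ, (Real.sqrt (71 / 240) * ((2 * h + 1 : ℕ) : ℝ) - 2) ^ (2 * n)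
      ≤ ((n : ℝ) + 1) ^ ((2 * h + 1) ^ 2) * r 3 (2 * h + 1) (n * 2) := by
    intro n
    have h1 := pow_le_r (SS h) (ph2 h) (rk h) hpeel n
    have h2 : ((SS h).card : ℝ) ^ n ≤ ((n : ℝ) + 1) ^ (SS h).card * r 3 (2 * h + 1) (n * 2) := by
      exact_mod_cast h1
    calc (Real.sqrt (71 / 240) * ((2 * h + 1 : ℕ) : ℝ) - 2) ^ (2 * n)
        = ((Real.sqrt (71 / 240) * ((2 * h + 1 : ℕ) : ℝ) - 2) ^ 2) ^ n := by rw [pow_mul]
      _ ≤ ((SS h).card : ℝ) ^ n := by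
          apply pow_le_pow_left₀ (sq_nonneg _) hcard
      _ ≤ _ := h2
      _ ≤ _ := by
          apply mul_le_mul_of_nonneg_right _ (Nat.cast_nonneg _)
          apply pow_le_pow_right₀ _ hcp
          have : (0 : ℝ) ≤ n := Nat.cast_nonneg _
          linarith
  refine ⟨hpow, ?_⟩
  have hc0 : 0.5439 ≤ Real.sqrt (71 / 240) := by
    apply Real.le_sqrt_of_sq_le
    norm_num
  have hpos : 0 ≤ Real.sqrt (71 / 240) * ((2 * h + 1 : ℕ) : ℝ) - 2 := by
    have : (7 : ℝ) ≤ ((2 * h + 1 : ℕ) : ℝ) := by exact_mod_cast h7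
    nlinarith
  have hl := lam_ge_of_pow (k := 3) (p := 2 * h + 1) (D := 2) (C := (2 * h + 1) ^ 2) (by norm_num)
    ((Real.sqrt (71 / 240) * ((2 * h + 1 : ℕ) : ℝ) - 2) ^ 2) (by positivity) (by
      intro n
      rw [← pow_mul]
      exact hpow n)
  have e : ((Real.sqrt (71 / 240) * ((2 * h + 1 : ℕ) : ℝ) - 2) ^ 2) ^ ((1 : ℝ) / ((2 : ℕ) : ℝ))
      = Real.sqrt (71 / 240) * ((2 * h + 1 : ℕ) : ℝ) - 2 := by
    rw [one_div]
    exact Real.pow_rpow_inv_natCast hpos (by norm_num)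
  rw [e] at hl
  exact hl

end Pool.Agent.H480R2.AP3
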